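import Pool.Agent.H706R2.Mah.Defs
import Pool.Agent.H706R2.Mah.Stubs

/-!
Task T13 of helper706: from the regularised inequality to the final theorem.
-/

namespace Pool.Agent.H706R2.Mah

open MeasureTheory Real Set Filter Topology
open scoped RealInnerProductSpace ENNReal

variable {n : ℕ}

lemma zero_nhds_of_symm (K : Set (E n)) (hK : Convex ℝ K)
    (hi : (interior K).Nonempty) (hs : ∀ x ∈ K, -x ∈ K) : K ∈ 𝓝 (0 : E n) := by
  obtain ⟨x, hx⟩ := hi
  have hneg : -K = K := by
    ext y
    rw [Set.mem_neg]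
    constructor
    · intro h
      have := hs _ h
      rwa [neg_neg] at this
    · exact hs y
  have hx' : -x ∈ interior K := by
    have h1 : interior (-K) = -interior K := by
      have := (Homeomorph.neg (E n)).preimage_interior K
      simpa [Homeomorph.neg, Set.neg_preimage] using this.symm
    rw [hneg] at h1
    rw [h1, Set.mem_neg, neg_neg]
    exact hx
  have h0 : (0 : E n) ∈ interior K := by
    have h2 := hK.interior hx hx' (by norm_num : (0 : ℝ) ≤ 1 / 2) (by norm_num : (0 : ℝ) ≤ 1 / 2)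
      (by norm_num)
    rwa [smul_neg, add_neg_cancel] at h2
  exact mem_interior_iff_mem_nhds.1 h0

lemma polar_convex (K : Set (E n)) : Convex ℝ (polar K) := by
  intro y hy z hz a b ha hb hab x hx
  rw [inner_add_right, inner_smul_right, inner_smul_right]
  have h1 := hy x hx
  have h2 := hz x hx
  nlinarith

lemma polar_closed (K : Set (E n)) : IsClosed (polar K) := by
  have : polar K = ⋂ x ∈ K, {y : E n | ⟪x, y⟫ ≤ 1} := by
    ext y; simp [polar]
  rw [this]
  exact isClosed_biInter fun x _ =>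
    isClosed_le (continuous_const.inner continuous_id) continuous_const

lemma polar_bounded (K : Set (E n)) (h0 : K ∈ 𝓝 (0 : E n)) : Bornology.IsBounded (polar K) := by
  obtain ⟨r, hr, hrK⟩ := Metric.nhds_basis_closedBall.mem_iff.1 h0
  rw [isBounded_iff_forall_norm_le]
  refine ⟨1 / r, fun y hy => ?_⟩
  rcases eq_or_ne y 0 with rfl | hy0
  · rw [norm_zero]; positivity
  have hny : 0 < ‖y‖ := norm_pos_iff.2 hy0
  have hx : (r / ‖y‖) • y ∈ K := by
    apply hrK
    rw [Metric.mem_closedBall, dist_zero_right, norm_smul, Real.norm_eq_abs,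
      abs_of_pos (by positivity), div_mul_cancel₀ _ hny.ne']
  have h1 := hy _ hx
  rw [real_inner_smul_left, real_inner_self_eq_norm_sq] at h1
  rw [le_div_iff₀ hr]
  have h2 : r / ‖y‖ * ‖y‖ ^ 2 = ‖y‖ * r := by
    field_simp
  linarith

lemma polar_zero_mem (K : Set (E n)) : (0 : E n) ∈ polar K := by
  intro x _
  rw [inner_zero_right]
  exact zero_le_one

lemma polar_neg (K : Set (E n)) (hs : ∀ x ∈ K, -x ∈ K) : ∀ y ∈ polar K, -y ∈ polar K := by
  intro y hy x hx
  have h1 := hy (-x) (hs x hx)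
  rw [inner_neg_left] at h1
  rw [inner_neg_right]
  exact h1

/-- T13. The final theorem, from T11, T12a, T12b. -/
theorem T13_final' (n : ℕ) (K : Set (E n)) (hK : Convex ℝ K) (hc : IsCompact K)
    (hi : (interior K).Nonempty) (hs : ∀ x ∈ K, -x ∈ K) :
    ENNReal.ofReal (((3 : ℝ) ^ (3 / 4 : ℝ) * π / 2) ^ n / n.factorial) ≤
      volume K * volume (polar K) := by
  have h0 := zero_nhds_of_symm K hK hi hs
  have habs : Absorbent ℝ K := absorbent_nhds_zero h0
  have hconv : ConvexOn ℝ univ (gauge K) := by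
    refine ⟨convex_univ, fun x _ y _ a b ha hb _ => ?_⟩
    refine (gauge_add_le hK habs _ _).trans ?_
    rw [gauge_smul_of_nonneg ha, gauge_smul_of_nonneg hb]
  obtain ⟨L, hL⟩ := hK.lipschitz_gauge h0
  have hsub : ∀ x h, gauge K (x + h) ≤ gauge K x + gauge K h := fun x h =>
    gauge_add_le hK habs x h
  have heven : ∀ x, gauge K (-x) = gauge K x := gauge_neg hs
  have hfQ : ∀ v : E n, (∀ h, ⟪v, h⟫ ≤ gauge K h) → v ∈ polar K := by
    intro v hv x hx
    rw [real_inner_comm]
    exact (hv x).trans (gauge_le_one_of_mem hx)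
  have hQc : IsCompact (polar K) :=
    Metric.isCompact_of_isClosed_isBounded (polar_closed K) (polar_bounded K h0)
  set X : ℝ := ((3 : ℝ) ^ (3 / 4 : ℝ) * π / 2) ^ n with hX
  have key : ∀ ε : ℝ, 0 < ε → ENNReal.ofReal X ≤
      ENNReal.ofReal (Real.exp (2 * ε)) * ((n.factorial : ℝ≥0∞) * volume K) *
        ∫⁻ x : E n, ENNReal.ofReal (Real.exp (-(Metric.infDist x (polar K) ^ 2 / (2 * ε)))) := by
    intro ε hε
    have h := T11_regular (gauge K) hconv L hL hsub heven (polar K) (polar_convex K)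
      (polar_closed K) (polar_bounded K h0) (polar_zero_mem K) (polar_neg K hs) hfQ ε hε
    rw [T12a_gauge K hK hc h0, gauge_zero, add_zero] at h
    exact h
  have hlim : Tendsto (fun ε : ℝ =>
      ENNReal.ofReal (Real.exp (2 * ε)) * ((n.factorial : ℝ≥0∞) * volume K) *
        ∫⁻ x : E n, ENNReal.ofReal (Real.exp (-(Metric.infDist x (polar K) ^ 2 / (2 * ε)))))
      (𝓝[>] 0) (𝓝 (ENNReal.ofReal (Real.exp (2 * 0)) * ((n.factorial : ℝ≥0∞) * volume K) *
        volume (polar K))) := by
    have hKfin : (n.factorial : ℝ≥0∞) * volume K ≠ ∞ :=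
      ENNReal.mul_ne_top (ENNReal.natCast_ne_top _) hc.measure_lt_top.ne
    have hPfin : volume (polar K) ≠ ∞ := hQc.measure_lt_top.ne
    have h1 : Tendsto (fun ε : ℝ => ENNReal.ofReal (Real.exp (2 * ε))) (𝓝[>] 0)
        (𝓝 (ENNReal.ofReal (Real.exp (2 * 0)))) := by
      refine ENNReal.tendsto_ofReal ?_
      have hcont : Continuous fun ε : ℝ => Real.exp (2 * ε) := by fun_prop
      exact (hcont.tendsto 0).mono_left nhdsWithin_le_nhds
    have h2 : Tendsto (fun ε : ℝ =>
        ENNReal.ofReal (Real.exp (2 * ε)) * ((n.factorial : ℝ≥0∞) * volume K)) (𝓝[>] 0)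
        (𝓝 (ENNReal.ofReal (Real.exp (2 * 0)) * ((n.factorial : ℝ≥0∞) * volume K))) :=
      ENNReal.Tendsto.mul_const h1 (Or.inr hKfin)
    exact ENNReal.Tendsto.mul h2 (Or.inr hPfin)
      (T12b_limit (polar K) (polar_convex K) hQc ⟨0, polar_zero_mem K⟩)
      (Or.inr (ENNReal.mul_ne_top ENNReal.ofReal_ne_top hKfin))
  have hle : ENNReal.ofReal X ≤ (n.factorial : ℝ≥0∞) * volume K * volume (polar K) := by
    have h := ge_of_tendsto hlim (by
      filter_upwards [self_mem_nhdsWithin] with ε hε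
      exact key ε hε)
    simpa using h
  have hf : (0 : ℝ) < n.factorial := by exact_mod_cast n.factorial_pos
  rw [ENNReal.ofReal_div_of_pos hf, ENNReal.ofReal_natCast]
  refine ENNReal.div_le_of_le_mul ?_
  calc ENNReal.ofReal X ≤ (n.factorial : ℝ≥0∞) * volume K * volume (polar K) := hle
    _ = volume K * volume (polar K) * n.factorial := by ring

end Pool.Agent.H706R2.Mah
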